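import Mathlib

open Set Filter Topology Real

namespace Pool.Agent.H.MP_5fee02_an

lemma second_nonpos {w : ℝ → ℝ} (hw : Continuous w) {x : ℝ} (h : IsLocalMax w x) :
    deriv (deriv w) x ≤ 0 := by
  by_contra h1
  rw [not_le] at h1
  have h2 := isLocalMin_of_deriv_deriv_pos h1 h.deriv_eq_zero hw.continuousAt
  have h3 : w =ᶠ[𝓝 x] fun _ => w x := by
    filter_upwards [h, h2] with y h4 h5 using le_antisymm h4 h5
  rw [h3.deriv.deriv_eq] at h1
  simp at h1

lemma exists_max {w : ℝ → ℝ} (hw : Continuous w) (hp : Function.Periodic w 1) :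
    ∃ x, IsLocalMax w x := by
  obtain ⟨_, ⟨x, rfl⟩, h⟩ := (hp.compact_of_continuous one_ne_zero hw).exists_isGreatest
    (range_nonempty _)
  exact ⟨x, Eventually.of_forall fun y => h ⟨y, rfl⟩⟩

lemma const_le {H : ℝ × ℝ → ℝ} {ε c c' : ℝ} (hε : 0 < ε) {v v' : ℝ → ℝ} (hv : ContDiff ℝ 2 v)
    (hv' : ContDiff ℝ 2 v') (hp : Function.Periodic v 1) (hp' : Function.Periodic v' 1)
    (h : ∀ x, H (x, deriv v x) = ε * deriv (deriv v) x + c)
    (h' : ∀ x, H (x, deriv v' x) = ε * deriv (deriv v') x + c') :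
    c' ≤ c ∧ ∃ x, deriv v x = deriv v' x := by
  obtain ⟨x, hx⟩ := exists_max (hv.continuous.sub hv'.continuous) (hp.sub hp')
  have d1 := hv.differentiable two_ne_zero
  have d2 := hv'.differentiable two_ne_zero
  have h1 : deriv (v - v') = deriv v - deriv v' := funext fun y => deriv_sub (d1 y) (d2 y)
  have h2 := second_nonpos (hv.continuous.sub hv'.continuous) hx
  have h3 := hx.deriv_eq_zero
  rw [h1] at h3
  rw [h1, deriv_sub (hv.differentiable_deriv_two x) (hv'.differentiable_deriv_two x)] at h2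
  have h4 : deriv v x = deriv v' x := sub_eq_zero.1 h3
  have h5 := h x
  rw [h4, h' x] at h5
  exact ⟨by nlinarith, x, h4⟩

lemma unique {H : ℝ × ℝ → ℝ} (hH : ContDiff ℝ 2 H) {ε c c' : ℝ} (hε : 0 < ε) {v v' : ℝ → ℝ}
    (hv : ContDiff ℝ 2 v) (hv' : ContDiff ℝ 2 v') (hp : Function.Periodic v 1)
    (hp' : Function.Periodic v' 1) (h0 : v 0 = v' 0)
    (h : ∀ x, H (x, deriv v x) = ε * deriv (deriv v) x + c)
    (h' : ∀ x, H (x, deriv v' x) = ε * deriv (deriv v') x + c') : v = v' := by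
  obtain ⟨h1, x0, h2⟩ := const_le hε hv hv' hp hp' h h'
  obtain rfl : c = c' := le_antisymm (const_le hε hv' hv hp' hp h' h).1 h1
  have c1 : Continuous (deriv v) := hv.continuous_deriv (by norm_num)
  have c2 : Continuous (deriv v') := hv'.continuous_deriv (by norm_num)
  have hF : ContDiff ℝ 1 fun z => (H z - c) / ε :=
    ((hH.of_le (by norm_num)).sub contDiff_const).div_const _
  have key : ∀ u : ℝ → ℝ, ContDiff ℝ 2 u → (∀ x, H (x, deriv u x) = ε * deriv (deriv u) x + c) →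
      ∀ t, HasDerivAt (deriv u) ((H (t, deriv u t) - c) / ε) t := fun u hu h t => by
    rw [h t, add_sub_cancel_right, mul_div_cancel_left₀ _ hε.ne']
    exact (hu.differentiable_deriv_two t).hasDerivAt
  have h3 : IsClopen {t | deriv v t = deriv v' t} := by
    refine ⟨isClosed_eq c1 c2, isOpen_iff_mem_nhds.2 fun t ht => ?_⟩
    obtain ⟨K, s, hs, hK⟩ := (hF.contDiffAt (x := (t, deriv v t))).exists_lipschitzOnWith
    refine ODE_solution_unique_of_eventually (K := K) (v := fun t p => (H (t, p) - c) / ε)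
      (s := fun t => {p | (t, p) ∈ s}) (Eventually.of_forall fun τ p hp p' hp' => ?_) ?_ ?_ ht
    · simpa [Prod.edist_eq] using hK hp hp'
    · filter_upwards [(continuous_id.prodMk c1).continuousAt.preimage_mem_nhds hs] with τ hτ
      exact ⟨key v hv h τ, hτ⟩
    · rw [show deriv v t = deriv v' t from ht] at hs
      filter_upwards [(continuous_id.prodMk c2).continuousAt.preimage_mem_nhds hs] with τ hτ
      exact ⟨key v' hv' h' τ, hτ⟩
  have h4 := h3.eq_univ ⟨x0, h2⟩
  have d1 := hv.differentiable two_ne_zero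
  have d2 := hv'.differentiable two_ne_zero
  funext t
  have := is_const_of_deriv_eq_zero (d1.sub d2) (fun t => by
    rw [deriv_sub (d1 t) (d2 t)]
    exact sub_eq_zero.2 (h4.symm.subset (mem_univ t))) t 0
  simp only [Pi.sub_apply] at this
  linarith

noncomputable def tw (j : ℕ) : ℝ := (1 / 2) ^ j
lemma tw_pos (j : ℕ) : 0 < tw j := by unfold tw; positivity
lemma tw_le (j : ℕ) : tw j ≤ 1 := pow_le_one₀ (by norm_num) (by norm_num)
lemma tw_lt {j k : ℕ} (h : j < k) : tw k ≤ tw j / 2 := by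
  have : tw k ≤ tw (j + 1) := pow_le_pow_of_le_one (by norm_num) (by norm_num) h
  rw [tw, tw, pow_succ] at this
  unfold tw
  linarith

noncomputable def SS (t : ℝ) : ℝ := smoothTransition t - smoothTransition (-t)
noncomputable def sn (j : ℕ) (x : ℝ) : ℝ := sin (2 * π * x - tw j / 2)
noncomputable def RR (j : ℕ) (x : ℝ) : ℝ := (-1) ^ j * SS (sn j x / (tw j / 16))

lemma SS_one {t : ℝ} (h : 1 ≤ t) : SS t = 1 := by
  rw [SS, smoothTransition.one_of_one_le h, smoothTransition.zero_of_nonpos (by linarith), sub_zero]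
lemma SS_neg (t : ℝ) : SS (-t) = -SS t := by simp [SS]
lemma SS_abs (t : ℝ) : |SS t| ≤ 1 := by
  have := smoothTransition.le_one t
  have := smoothTransition.nonneg t
  have := smoothTransition.le_one (-t)
  have := smoothTransition.nonneg (-t)
  rw [SS, abs_le]
  constructor <;> linarith

lemma RR_smooth (j : ℕ) : ContDiff ℝ ((3 : ℕ) : ℕ∞) (RR j) := by
  have h : ContDiff ℝ ((3 : ℕ) : ℕ∞) fun x => sn j x / (tw j / 16) := by unfold sn; fun_prop
  exact contDiff_const.mul ((smoothTransition.contDiff.comp h).sub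
    (smoothTransition.contDiff.comp h.neg))

lemma RR_half (j : ℕ) (x : ℝ) : RR j (x + 1 / 2) = -RR j x := by
  have : sn j (x + 1 / 2) = -sn j x := by
    rw [sn, sn, ← sin_add_pi]
    congr 1
    ring
  rw [RR, RR, this, neg_div, SS_neg, mul_neg]

lemma RR_per (j : ℕ) : Function.Periodic (RR j) 1 := fun x => by
  rw [show x + 1 = x + 1 / 2 + 1 / 2 by ring, RR_half, RR_half, neg_neg]

lemma RR_abs (j : ℕ) (x : ℝ) : |RR j x| ≤ 1 := by simpa [RR, abs_mul] using SS_abs _

lemma RR_pos {j : ℕ} {x : ℝ} (h : tw j / 16 ≤ sn j x) : RR j x = (-1) ^ j := by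
  rw [RR, SS_one ((one_le_div (by have := tw_pos j; positivity)).2 h), mul_one]

lemma RR_neg {j : ℕ} {x : ℝ} (h : sn j x ≤ -(tw j / 16)) : RR j x = -(-1) ^ j := by
  rw [RR, ← neg_neg (sn j x), neg_div,
    SS_neg, SS_one ((one_le_div (by have := tw_pos j; positivity)).2 (by linarith))]
  ring

lemma RR_one {j : ℕ} {x : ℝ} (h : tw j / 16 ≤ |sn j x|) : |RR j x| = 1 := by
  rcases le_abs'.1 h with h | h
  · simp [RR_neg h]
  · simp [RR_pos h]

lemma RR_deriv {j : ℕ} {x : ℝ} (h : tw j / 16 < |sn j x|) : deriv (RR j) x = 0 := by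
  have hc : Continuous (sn j) := by unfold sn; fun_prop
  rcases lt_abs.1 h with h | h
  · have : RR j =ᶠ[𝓝 x] fun _ => (-1) ^ j :=
      (continuous_const.continuousAt.eventually_lt hc.continuousAt h).mono fun y hy => RR_pos hy.le
    simp [this.deriv_eq]
  · have : RR j =ᶠ[𝓝 x] fun _ => -(-1) ^ j :=
      (continuous_const.continuousAt.eventually_lt hc.neg.continuousAt h).mono fun y hy =>
        RR_neg (by simp only [Pi.neg_apply] at hy; linarith)
    simp [this.deriv_eq]

lemma sn_sep {j k : ℕ} (h : j < k) {x : ℝ} (hx : |sn j x| ≤ tw j / 16) : tw k / 16 ≤ |sn k x| := by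
  have h1 := tw_lt h
  have h2 := tw_pos k
  have h3 := tw_le j
  have h4 : sin (tw j / 2 - tw k / 2) = sn k x * cos (2 * π * x - tw j / 2) -
      cos (2 * π * x - tw k / 2) * sn j x := by
    rw [sn, sn, ← sin_sub]
    congr 1
    ring
  have h5 := mul_le_sin (x := tw j / 2 - tw k / 2) (by linarith) (by linarith [pi_gt_three])
  have h6 : 1 / 2 ≤ 2 / π := by rw [div_le_div_iff₀ two_pos pi_pos]; linarith [pi_le_four]
  have h7 : |sn k x * cos (2 * π * x - tw j / 2)| ≤ |sn k x| := by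
    rw [abs_mul]
    exact mul_le_of_le_one_right (abs_nonneg _) (abs_cos_le_one _)
  have h8 : |cos (2 * π * x - tw k / 2) * sn j x| ≤ |sn j x| := by
    rw [abs_mul]
    exact mul_le_of_le_one_left (abs_nonneg _) (abs_cos_le_one _)
  have h9 := le_abs_self (sn k x * cos (2 * π * x - tw j / 2))
  have h10 := neg_abs_le (cos (2 * π * x - tw k / 2) * sn j x)
  nlinarith

lemma sn_big (j : ℕ) {x : ℝ} (hx : x ∈ Icc (1 / (2 * π)) (3 / (4 * π))) : tw j / 16 ≤ sn j x := by
  have h1 : 1 ≤ 2 * π * x := by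
    have := hx.1
    rw [div_le_iff₀ (by positivity)] at this
    linarith
  have h2 : 2 * π * x ≤ 3 / 2 := by
    have := hx.2
    rw [le_div_iff₀ (by positivity)] at this
    linarith
  have h3 := tw_le j
  have h4 := tw_pos j
  have h5 := mul_le_sin (x := 2 * π * x - tw j / 2) (by linarith) (by linarith [pi_gt_three])
  have h6 : 1 / 2 ≤ 2 / π := by rw [div_le_div_iff₀ two_pos pi_pos]; linarith [pi_le_four]
  unfold sn
  nlinarith

noncomputable def ch (j : ℕ) : ContDiffBump (0 : ℝ) :=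
  ⟨2 - tw j, 2 - tw j + tw j / 4, by linarith [tw_le j], by linarith [tw_pos j]⟩

noncomputable def ff (j : ℕ) (z : ℝ × ℝ) : ℝ := deriv (RR j) z.1 * ch j z.2

lemma ff_smooth (j : ℕ) : ContDiff ℝ ((2 : ℕ) : ℕ∞) (ff j) := by
  have h : ContDiff ℝ ((2 : ℕ) : ℕ∞) (deriv (RR j)) := (RR_smooth j).deriv'
  exact (h.comp contDiff_fst).mul ((ch j).contDiff.comp contDiff_snd)

lemma ff_per (j : ℕ) (z : ℝ × ℝ) : ff j (z + (1, 0)) = ff j z := by
  have : deriv (RR j) (z.1 + 1) = deriv (RR j) z.1 := by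
    rw [← deriv_comp_add_const, funext (RR_per j)]
  simp [ff, this]

lemma ff_zero (j : ℕ) {z : ℝ × ℝ} (h : 2 ≤ |z.2|) : ff j z = 0 := by
  rw [ff, (ch j).zero_of_le_dist (by simp only [ch, Real.dist_eq, sub_zero]; linarith [tw_pos j]),
    mul_zero]

lemma ff_bound (j : ℕ) : ∃ M : ℝ, 4 ≤ M ∧ ∀ n : ℕ, n ≤ 2 → ∀ z, ‖iteratedFDeriv ℝ n (ff j) z‖ ≤ M := by
  have key : ∀ n : ℕ, n ≤ 2 → ∃ M : ℝ, ∀ z, ‖iteratedFDeriv ℝ n (ff j) z‖ ≤ M := by
    intro n hn
    have hc := (ff_smooth j).continuous_iteratedFDeriv (m := n) (by exact_mod_cast hn)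
    obtain ⟨M, hM⟩ := (isCompact_Icc (a := ((0, -2) : ℝ × ℝ)) (b := (1, 2))).exists_bound_of_continuousOn
      hc.continuousOn
    refine ⟨max M 0, fun z => ?_⟩
    by_cases hz : |z.2| ≤ 2
    · have hp : Function.Periodic (fun x => iteratedFDeriv ℝ n (ff j) (x, z.2)) 1 := fun x => by
        have := iteratedFDeriv_comp_add_right (𝕜 := ℝ) (f := ff j) n (1, 0) (x, z.2)
        rw [funext (ff_per j)] at this
        simpa using this.symm
      obtain ⟨y, hy, h⟩ := hp.exists_mem_Ico₀ one_pos z.1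
      rw [show iteratedFDeriv ℝ n (ff j) z = iteratedFDeriv ℝ n (ff j) (y, z.2) from h]
      exact (hM (y, z.2) ⟨⟨hy.1, (abs_le.1 hz).1⟩, hy.2.le, (abs_le.1 hz).2⟩).trans (le_max_left _ _)
    · have : z ∉ Function.support (iteratedFDeriv ℝ n (ff j)) := fun h => hz
        (closure_minimal (s := Function.support (ff j)) (t := {z : ℝ × ℝ | |z.2| ≤ 2})
          (fun y hy => le_of_not_ge fun h1 => hy (ff_zero j h1))
          (isClosed_le (by fun_prop) continuous_const) (support_iteratedFDeriv_subset n h))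
      rw [Function.notMem_support.1 this, norm_zero]
      exact le_max_right _ _
  obtain ⟨M0, h0⟩ := key 0 (by norm_num)
  obtain ⟨M1, h1⟩ := key 1 (by norm_num)
  obtain ⟨M2, h2⟩ := key 2 (by norm_num)
  refine ⟨max 4 (max M0 (max M1 M2)), le_max_left _ _, fun n hn z => ?_⟩
  interval_cases n
  · exact (h0 z).trans (by simp)
  · exact (h1 z).trans (by simp)
  · exact (h2 z).trans (by simp)

end Pool.Agent.H.MP_5fee02_an
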