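import Pool.Agent.H.MP_5fee02_an.A

open Set Filter Topology Real

namespace Pool.Agent.H.MP_5fee02_an

noncomputable def MM (j : ℕ) : ℝ := (ff_bound j).choose
lemma MM_ge (j : ℕ) : 4 ≤ MM j := (ff_bound j).choose_spec.1
lemma MM_bd (j n : ℕ) (hn : n ≤ 2) (z : ℝ × ℝ) : ‖iteratedFDeriv ℝ n (ff j) z‖ ≤ MM j :=
  (ff_bound j).choose_spec.2 n hn z

noncomputable def cc : ℕ → ℝ
  | 0 => 1 / MM 0
  | j + 1 => min (tw (j + 1) / MM (j + 1)) (cc j * tw j / 16)

lemma cc_pos (j : ℕ) : 0 < cc j := by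
  induction j with
  | zero => have := MM_ge 0; unfold cc; positivity
  | succ j ih =>
    have := MM_ge (j + 1)
    have := tw_pos j
    have := tw_pos (j + 1)
    unfold cc
    positivity

lemma cc_MM (j : ℕ) : cc j * MM j ≤ tw j := by
  have h : 0 < MM j := by linarith [MM_ge j]
  rw [← le_div_iff₀ h]
  cases j with
  | zero => simp [cc, tw]
  | succ j => exact min_le_left _ _

lemma cc_succ (j : ℕ) : cc (j + 1) ≤ cc j * tw j / 16 := min_le_right _ _

lemma cc_le (j : ℕ) : cc j ≤ tw j / 4 := by nlinarith [cc_MM j, MM_ge j, cc_pos j]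

lemma cc_geo (k j : ℕ) : cc (j + k) ≤ cc k * tw j := by
  induction j with
  | zero => simp [tw]
  | succ j ih =>
    have h1 := cc_succ (j + k)
    have h2 := tw_le (j + k)
    have h3 := cc_pos (j + k)
    have h4 : tw (j + 1) = tw j / 2 := by rw [tw, tw, pow_succ]; ring
    rw [add_right_comm, h4]
    nlinarith

lemma tw_sum : HasSum tw 2 := hasSum_geometric_two

lemma cc_sum (k : ℕ) : Summable fun j => cc (j + k) :=
  .of_nonneg_of_le (fun _ => (cc_pos _).le) (cc_geo k) (tw_sum.summable.mul_left _)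

noncomputable def TT (k : ℕ) : ℝ := ∑' j, cc (j + k)

lemma TT_le (k : ℕ) : TT k ≤ cc k * 2 :=
  hasSum_le (cc_geo k) (cc_sum k).hasSum (tw_sum.mul_left _)
lemma TT_nonneg (k : ℕ) : 0 ≤ TT k := tsum_nonneg fun _ => (cc_pos _).le
lemma TT_succ (k : ℕ) : TT k = cc k + TT (k + 1) := by
  rw [TT, (cc_sum k).tsum_eq_zero_add, zero_add, TT]
  simp only [add_assoc, add_comm 1 k]
lemma TT_pos (k : ℕ) : 0 < TT k := by linarith [TT_succ k, cc_pos k, TT_nonneg (k + 1)]

noncomputable def UU (k : ℕ) (x : ℝ) : ℝ := ∑' j, cc (j + k) * RR (j + k) x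
noncomputable def DD (k : ℕ) (x : ℝ) : ℝ := ∑' j, cc (j + k) * deriv (RR (j + k)) x

lemma UU_bd (j : ℕ) (x : ℝ) : ‖cc j * RR j x‖ ≤ cc j := by
  rw [norm_mul, Real.norm_of_nonneg (cc_pos j).le]
  exact mul_le_of_le_one_right (cc_pos j).le (RR_abs j x)

lemma UU_sum (k : ℕ) (x : ℝ) : Summable fun j => cc (j + k) * RR (j + k) x :=
  .of_norm_bounded (cc_sum k) fun _ => UU_bd _ x

lemma UU_abs (k : ℕ) (x : ℝ) : |UU k x| ≤ TT k :=
  tsum_of_norm_bounded (cc_sum k).hasSum fun _ => UU_bd _ x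

lemma UU_succ (k : ℕ) (x : ℝ) : UU k x = cc k * RR k x + UU (k + 1) x := by
  rw [UU, (UU_sum k x).tsum_eq_zero_add, zero_add, UU]
  simp only [add_assoc, add_comm 1 k]

lemma UU_half (k : ℕ) (x : ℝ) : UU k (x + 1 / 2) = -UU k x := by
  simp only [UU, RR_half, mul_neg, tsum_neg]

lemma ff_bd (j : ℕ) (z : ℝ × ℝ) : ‖cc j * ff j z‖ ≤ tw j := by
  have := MM_bd j 0 (by norm_num) z
  rw [norm_iteratedFDeriv_zero] at this
  rw [norm_mul, Real.norm_of_nonneg (cc_pos j).le]
  exact (mul_le_mul_of_nonneg_left this (cc_pos j).le).trans (cc_MM j)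

lemma ff_eq (j : ℕ) (x : ℝ) {p : ℝ} (h : |p| ≤ 2 - tw j) : ff j (x, p) = deriv (RR j) x := by
  rw [ff, (ch j).one_of_mem_closedBall (by simpa [ch] using h), mul_one]

lemma DD_bd (j : ℕ) (x : ℝ) : ‖cc j * deriv (RR j) x‖ ≤ tw j := by
  rw [← ff_eq j x (p := 0) (by simp; linarith [tw_le j])]
  exact ff_bd j _

lemma tw_sum' (k : ℕ) : Summable fun j => tw (j + k) := (summable_nat_add_iff k).2 tw_sum.summable

lemma UU_deriv (k : ℕ) (x : ℝ) : HasDerivAt (UU k) (DD k x) x :=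
  hasDerivAt_tsum (tw_sum' k) (fun j y =>
    (((RR_smooth (j + k)).differentiable (by simp)) y).hasDerivAt.const_mul _)
    (fun _ y => DD_bd _ y) (UU_sum k 0) x

lemma DD_cont (k : ℕ) : Continuous (DD k) :=
  continuous_tsum (fun j => continuous_const.mul ((RR_smooth (j + k)).continuous_deriv (by simp)))
    (tw_sum' k) fun _ y => DD_bd _ y

noncomputable def ep (k : ℕ) : ℝ := TT k / (2 - tw k)
noncomputable def qq (k : ℕ) (x : ℝ) : ℝ := UU k x / ep k

lemma ep_pos (k : ℕ) : 0 < ep k := div_pos (TT_pos k) (by linarith [tw_le k])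
lemma ep_le (k : ℕ) : ep k ≤ tw k / 2 :=
  (div_le_self (TT_nonneg k) (by linarith [tw_le k])).trans (by linarith [TT_le k, cc_le k])

lemma qq_abs (k : ℕ) (x : ℝ) : |qq k x| ≤ 2 - tw k := by
  rw [qq, abs_div, abs_of_pos (ep_pos k), div_le_iff₀ (ep_pos k), ep,
    mul_div_cancel₀ _ (by linarith [tw_le k])]
  exact UU_abs k x

lemma low (k : ℕ) : (2 - tw k - tw k / 2) * ep k ≤ cc k - TT (k + 1) := by
  have h1 := TT_le (k + 1)
  have h2 := cc_succ k
  have h3 := TT_nonneg (k + 1)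
  have h4 := tw_pos k
  have h5 := tw_le k
  have h6 := cc_pos k
  rw [ep, ← mul_div_assoc, div_le_iff₀ (by linarith), TT_succ]
  nlinarith

lemma qq_low {k : ℕ} {x : ℝ} (h : |RR k x| = 1) : 2 - tw k - tw k / 2 ≤ |qq k x| := by
  rw [qq, abs_div, abs_of_pos (ep_pos k), le_div_iff₀ (ep_pos k), UU_succ]
  have h1 := abs_sub_abs_le_abs_add (cc k * RR k x) (UU (k + 1) x)
  rw [abs_mul, h, abs_of_pos (cc_pos k)] at h1
  linarith [low k, UU_abs (k + 1) x]

lemma qq_sign {k : ℕ} {x : ℝ} (h : RR k x = (-1) ^ k) : 1 / 2 ≤ (-1) ^ k * qq k x := by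
  rw [qq, ← mul_div_assoc, le_div_iff₀ (ep_pos k), UU_succ, h, mul_add, mul_left_comm, ← mul_pow]
  have h1 : |(-1) ^ k * UU (k + 1) x| ≤ TT (k + 1) := by simpa [abs_mul] using UU_abs (k + 1) x
  have h2 := low k
  have h3 := ep_pos k
  have h4 := tw_le k
  norm_num
  nlinarith [neg_abs_le ((-1) ^ k * UU (k + 1) x)]

def big : ContDiffBump (0 : ℝ) := ⟨2, 3, by norm_num, by norm_num⟩

noncomputable def HH (z : ℝ × ℝ) : ℝ := ∑' j, cc j * ff j z + z.2 ^ 2 * (1 - big z.2)

lemma HH_smooth : ContDiff ℝ 2 HH := by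
  refine ContDiff.add (n := ((2 : ℕ) : ℕ∞)) (contDiff_tsum (v := fun _ => tw)
    (fun j => contDiff_const.mul (ff_smooth j)) (fun _ _ => tw_sum.summable) fun n j z hn => ?_)
    ((contDiff_snd.pow 2).mul (contDiff_const.sub (big.contDiff.comp contDiff_snd)))
  have hn' : n ≤ 2 := by exact_mod_cast hn
  have := iteratedFDeriv_const_smul_apply (𝕜 := ℝ) (i := n) (a := cc j) (f := ff j) (x := z)
    ((ff_smooth j).contDiffAt.of_le (by exact_mod_cast hn))
  rw [show (fun z => cc j * ff j z) = cc j • ff j from rfl, this, norm_smul,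
    Real.norm_of_nonneg (cc_pos j).le]
  exact (mul_le_mul_of_nonneg_left (MM_bd j n hn' z) (cc_pos j).le).trans (cc_MM j)

lemma HH_per (x p : ℝ) : HH (x + 1, p) = HH (x, p) := by
  have : ∀ j, ff j (x + 1, p) = ff j (x, p) := fun j => by simpa using ff_per j (x, p)
  simp only [HH, this]

lemma HH_big (x : ℝ) {p : ℝ} (h : 3 ≤ |p|) : HH (x, p) = p ^ 2 := by
  have : ∀ j, ff j (x, p) = 0 := fun j => ff_zero j (by simp only; linarith)
  simp [HH, this, big.zero_of_le_dist (x := p) (by simpa [big] using h)]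

lemma HH_eq (k : ℕ) (x : ℝ) : HH (x, qq k x) = DD k x := by
  have h1 := qq_abs k x
  have h2 : Summable fun j => cc j * ff j (x, qq k x) :=
    .of_norm_bounded tw_sum.summable fun j => ff_bd j _
  rw [HH, big.one_of_mem_closedBall (by simp [big]; linarith [tw_pos k]), sub_self, mul_zero,
    add_zero, ← h2.sum_add_tsum_nat_add k, Finset.sum_eq_zero, zero_add, DD]
  · refine tsum_congr fun j => ?_
    rw [ff_eq _ _ (h1.trans ?_)]
    have : tw (j + k) ≤ tw k := pow_le_pow_of_le_one (by norm_num) (by norm_num) (by omega)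
    linarith
  · intro j hj
    have hj := Finset.mem_range.1 hj
    by_cases h3 : |sn j x| ≤ tw j / 16
    · have h4 := qq_low (RR_one (sn_sep hj h3))
      rw [ff, (ch j).zero_of_le_dist (by
        simp only [ch, Real.dist_eq, sub_zero]
        linarith [tw_lt hj]), mul_zero, mul_zero]
    · rw [ff, RR_deriv (not_le.1 h3), zero_mul, mul_zero]

noncomputable def vv (k : ℕ) (x : ℝ) : ℝ := ∫ t in (0 : ℝ)..x, qq k t

lemma qq_deriv (k : ℕ) (x : ℝ) : HasDerivAt (qq k) (DD k x / ep k) x := (UU_deriv k x).div_const _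
lemma qq_cont (k : ℕ) : Continuous (qq k) :=
  continuous_iff_continuousAt.2 fun x => (qq_deriv k x).continuousAt
lemma vv_deriv (k : ℕ) (x : ℝ) : HasDerivAt (vv k) (qq k x) x :=
  ((qq_cont k).integral_hasStrictDerivAt 0 x).hasDerivAt
lemma deriv_vv (k : ℕ) : deriv (vv k) = qq k := funext fun x => (vv_deriv k x).deriv
lemma deriv_qq (k : ℕ) : deriv (qq k) = fun x => DD k x / ep k :=
  funext fun x => (qq_deriv k x).deriv

lemma vv_smooth (k : ℕ) : ContDiff ℝ 2 (vv k) := by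
  rw [show (2 : WithTop ℕ∞) = 1 + 1 from rfl, contDiff_succ_iff_deriv, deriv_vv,
    contDiff_one_iff_deriv, deriv_qq]
  exact ⟨fun x => (vv_deriv k x).differentiableAt, by simp,
    fun x => (qq_deriv k x).differentiableAt, (DD_cont k).div_const _⟩

lemma vv_per (k : ℕ) : Function.Periodic (vv k) 1 := by
  have h : ∀ x, HasDerivAt (fun x => vv k (x + 1 / 2) + vv k x) 0 x := fun x => by
    have := ((vv_deriv k (x + 1 / 2)).comp_add_const x (1 / 2)).add (vv_deriv k x)
    rwa [qq, UU_half, neg_div, qq, neg_add_cancel] at this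
  intro x
  have := is_const_of_deriv_eq_zero (fun x => (h x).differentiableAt) (fun x => (h x).deriv)
    (x + 1 / 2) x
  rw [show x + 1 / 2 + 1 / 2 = x + 1 by ring] at this
  linarith

lemma vv_eq (k : ℕ) (x : ℝ) : HH (x, deriv (vv k) x) = ep k * deriv (deriv (vv k)) x + 0 := by
  rw [deriv_vv, deriv_qq, HH_eq, add_zero, mul_div_cancel₀ _ (ep_pos k).ne']

lemma vv_gap (k : ℕ) :
    1 / (8 * π) ≤ (-1) ^ k * (vv k (3 / (4 * π)) - vv k (1 / (2 * π))) := by
  have hle : 1 / (2 * π) ≤ 3 / (4 * π) := by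
    rw [div_le_div_iff₀ (by positivity) (by positivity)]
    linarith [pi_pos]
  rw [vv, vv, intervalIntegral.integral_interval_sub_left ((qq_cont k).intervalIntegrable _ _)
    ((qq_cont k).intervalIntegrable _ _), ← intervalIntegral.integral_const_mul]
  refine le_trans (le_of_eq ?_) (intervalIntegral.integral_mono_on (f := fun _ => 1 / 2) hle
    intervalIntegrable_const ((continuous_const.mul (qq_cont k)).intervalIntegrable _ _)
    fun x hx => qq_sign (RR_pos (sn_big k hx)))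
  simp
  field_simp
  norm_num

lemma ep_tend : Tendsto ep atTop (𝓝[>] 0) :=
  tendsto_nhdsWithin_iff.2 ⟨squeeze_zero (fun k => (ep_pos k).le) ep_le
    (by simpa using tw_sum.summable.tendsto_atTop_zero.div_const 2), Eventually.of_forall ep_pos⟩

lemma no_limit (w : ℝ → ℝ) : ¬ ∀ x, Tendsto (fun k => vv k x) atTop (𝓝 (w x)) := by
  intro h
  have h1 := (h (3 / (4 * π))).sub (h (1 / (2 * π)))
  have h2 : 1 / (8 * π) ≤ _ := ge_of_tendsto' (h1.comp (tendsto_id.const_mul_atTop' two_pos))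
    fun k => by simpa using vv_gap (2 * k)
  have h3 : 1 / (8 * π) ≤ _ := ge_of_tendsto' (h1.neg.comp
    (tendsto_atTop_mono (g := fun k => 2 * k + 1) (fun k => by simp only [id]; omega) tendsto_id))
    fun k => by simpa [pow_succ] using vv_gap (2 * k + 1)
  have : 0 < 1 / (8 * π) := by positivity
  linarith

end Pool.Agent.H.MP_5fee02_an
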